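import Mathlib

/-!
# Definitions for tau-star covers of the Cantor space
-/

set_option autoImplicit false

namespace Pool.Agent.TauStar

/-- `B` is a linear refinement of the (indexed) family `U` of subsets of the Cantor space: for each
point `x` the set `B x` is an infinite subset of `{n | x ∈ U n}`, and any two sets `B x`, `B y` are
comparable modulo finite sets. -/
structure IsLinearRefinement (U : ℕ → Set (ℕ → Bool)) (B : (ℕ → Bool) → Set ℕ) : Prop where
  subset : ∀ x, B x ⊆ {n : ℕ | x ∈ U n}
  infinite : ∀ x, (B x).Infinite
  linear : ∀ x y, (B x \ B y).Finite ∨ (B y \ B x).Finite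

/-- A countable open tau-star cover of the Cantor space, injectively enumerated: open proper
subsets, each point in infinitely many of them, with a linear refinement. -/
structure IsTauStarCover (U : ℕ → Set (ℕ → Bool)) : Prop where
  isOpen : ∀ n, IsOpen (U n)
  injective : Function.Injective U
  ne_univ : ∀ n, U n ≠ Set.univ
  large : ∀ x : ℕ → Bool, {n : ℕ | x ∈ U n}.Infinite
  refinable : ∃ B : (ℕ → Bool) → Set ℕ, IsLinearRefinement U B

/-- Some infinite subfamily of `U` is a gamma-cover: each point is in all but finitely many of its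
members. -/
def HasGammaSubcover (U : ℕ → Set (ℕ → Bool)) : Prop :=
  ∃ A : Set ℕ, A.Infinite ∧ ∀ x : ℕ → Bool, {n : ℕ | n ∈ A ∧ x ∉ U n}.Finite

/-- The question Q1: each countable open tau-star cover of the Cantor space contains a
gamma-cover. -/
def CantorSatisfiesTauStarGamma : Prop :=
  ∀ U : ℕ → Set (ℕ → Bool), IsTauStarCover U → HasGammaSubcover U

/-- `cov(M)`: the least cardinality of a family of meager subsets of the Baire space covering it. -/
noncomputable def covM : Cardinal.{0} :=
  sInf {κ | ∃ S : Set (Set (ℕ → ℕ)), (∀ A ∈ S, IsMeagre A) ∧ ⋃₀ S = Set.univ ∧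
    Cardinal.mk S = κ}

/-- `non(M)`: the least cardinality of a non-meager subset of the Baire space. -/
noncomputable def nonM : Cardinal.{0} :=
  sInf {κ | ∃ Y : Set (ℕ → ℕ), ¬ IsMeagre Y ∧ Cardinal.mk Y = κ}

/-- A family of subsets of `ℕ` is centered if all its finite subfamilies have infinite
intersection. -/
def Centered (A : Set (Set ℕ)) : Prop :=
  ∀ F : Finset (Set ℕ), (F : Set (Set ℕ)) ⊆ A → (⋂₀ (F : Set (Set ℕ))).Infinite

/-- The family `A` has a pseudo-intersection: an infinite set almost contained in each member. -/
def HasPseudoIntersection (A : Set (Set ℕ)) : Prop :=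
  ∃ P : Set ℕ, P.Infinite ∧ ∀ a ∈ A, (P \ a).Finite

/-- The pseudo-intersection number: the least cardinality of a centered family without a
pseudo-intersection. -/
noncomputable def pNum : Cardinal.{0} :=
  sInf {κ | ∃ A : Set (Set ℕ), Centered A ∧ ¬ HasPseudoIntersection A ∧ Cardinal.mk A = κ}

/-- The coinitiality of the family `B` with respect to almost inclusion: the least cardinality of a
set `S` of points such that each `B x` almost contains some `B s` with `s ∈ S`. -/
noncomputable def coinitiality (B : (ℕ → Bool) → Set ℕ) : Cardinal.{0} :=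
  sInf {κ | ∃ S : Set (ℕ → Bool), (∀ x, ∃ s ∈ S, (B s \ B x).Finite) ∧ Cardinal.mk S = κ}

end Pool.Agent.TauStar
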