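import Mathlib
import Pool.Agent.TauStar.Defs

/-!
# Category arguments for tau-star covers
-/

set_option autoImplicit false

namespace Pool.Agent.TauStar

open Set

/-! ## A skeletal map from the Baire space to a closed subset of the Cantor space -/

section skeletal

variable (d : ℕ → (ℕ → Bool))

/-- one step: from a cylinder `(x, l)` pass to a smaller one, directed by the number `n` -/
noncomputable def stepCyl (p : (ℕ → Bool) × ℕ) (n : ℕ) : (ℕ → Bool) × ℕ :=
  open Classical in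
  if d n.unpair.1 ∈ PiNat.cylinder p.1 p.2 then (d n.unpair.1, p.2 + 1 + n.unpair.2)
  else (p.1, p.2 + 1)

/-- the sequence of cylinders directed by `z` -/
noncomputable def seqCyl (z : ℕ → ℕ) : ℕ → (ℕ → Bool) × ℕ
  | 0 => (d 0, 0)
  | n + 1 => stepCyl d (seqCyl z n) (z n)

lemma stepCyl_lt (p : (ℕ → Bool) × ℕ) (n : ℕ) : p.2 < (stepCyl d p n).2 := by
  unfold stepCyl
  split_ifs <;> simp only <;> omega

lemma stepCyl_mem (p : (ℕ → Bool) × ℕ) (n : ℕ) :
    (stepCyl d p n).1 ∈ PiNat.cylinder p.1 p.2 := by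
  unfold stepCyl
  split_ifs with h
  · exact h
  · exact PiNat.self_mem_cylinder _ _

lemma seqCyl_le (z : ℕ → ℕ) (n : ℕ) : n ≤ (seqCyl d z n).2 := by
  induction n with
  | zero => exact Nat.zero_le _
  | succ n ih => exact lt_of_le_of_lt ih (stepCyl_lt d _ _)

lemma seqCyl_mono (z : ℕ → ℕ) {m n : ℕ} (h : m ≤ n) : (seqCyl d z m).2 ≤ (seqCyl d z n).2 := by
  induction h with
  | refl => exact le_rfl
  | step h ih => exact ih.trans (stepCyl_lt d _ _).le

lemma seqCyl_mem (z : ℕ → ℕ) {m n : ℕ} (h : m ≤ n) :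
    (seqCyl d z n).1 ∈ PiNat.cylinder (seqCyl d z m).1 (seqCyl d z m).2 := by
  induction h with
  | refl => exact PiNat.self_mem_cylinder _ _
  | @step n h ih =>
    intro i hi
    have h1 : (seqCyl d z (n + 1)).1 i = (seqCyl d z n).1 i :=
      stepCyl_mem d (seqCyl d z n) (z n) i (lt_of_lt_of_le hi (seqCyl_mono d z h))
    rw [h1]
    exact ih i hi

lemma seqCyl_congr (z z' : ℕ → ℕ) (n : ℕ) (h : ∀ i < n, z i = z' i) :
    seqCyl d z n = seqCyl d z' n := by
  induction n with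
  | zero => rfl
  | succ n ih =>
    change stepCyl d (seqCyl d z n) (z n) = stepCyl d (seqCyl d z' n) (z' n)
    rw [ih fun i hi => h i (Nat.lt_succ_of_lt hi), h n (Nat.lt_succ_self n)]

/-- the limit point -/
noncomputable def skel (z : ℕ → ℕ) : ℕ → Bool := fun k => (seqCyl d z (k + 1)).1 k

lemma skel_mem (z : ℕ → ℕ) (n : ℕ) :
    skel d z ∈ PiNat.cylinder (seqCyl d z n).1 (seqCyl d z n).2 := by
  intro k hk
  change (seqCyl d z (k + 1)).1 k = (seqCyl d z n).1 k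
  rcases le_total (k + 1) n with h | h
  · exact (seqCyl_mem d z h k (seqCyl_le d z (k + 1))).symm
  · exact seqCyl_mem d z h k hk

lemma continuous_skel : Continuous (skel d) := by
  refine continuous_pi fun k => ?_
  rw [continuous_discrete_rng]
  intro b
  rw [isOpen_iff_mem_nhds]
  intro z hz
  have h1 : PiNat.cylinder z (k + 1) ∈ nhds z :=
    (PiNat.isOpen_cylinder _ z (k + 1)).mem_nhds (PiNat.self_mem_cylinder _ _)
  refine Filter.mem_of_superset h1 ?_
  intro z' hz'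
  have h2 : seqCyl d z' (k + 1) = seqCyl d z (k + 1) := seqCyl_congr d z' z (k + 1) hz'
  change skel d z' k = b
  have h3 : skel d z k = b := hz
  rw [← h3]
  unfold skel
  rw [h2]

variable {d} {F : Set (ℕ → Bool)}

lemma seqCyl_fst_mem (hd : ∀ i, d i ∈ F) (z : ℕ → ℕ) (n : ℕ) : (seqCyl d z n).1 ∈ F := by
  induction n with
  | zero => exact hd 0
  | succ n ih =>
    change (stepCyl d (seqCyl d z n) (z n)).1 ∈ F
    unfold stepCyl
    split_ifs
    · exact hd _
    · exact ih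

lemma skel_mem_closed (hd : ∀ i, d i ∈ F) (hF : IsClosed F) (z : ℕ → ℕ) : skel d z ∈ F := by
  have h : Filter.Tendsto (fun n => (seqCyl d z n).1) Filter.atTop (nhds (skel d z)) := by
    rw [tendsto_pi_nhds]
    intro k
    refine tendsto_const_nhds.congr' ?_
    filter_upwards [Filter.eventually_ge_atTop (k + 1)] with n hn
    exact skel_mem d z n k (lt_of_lt_of_le hn (seqCyl_le d z n))
  exact hF.mem_of_tendsto h (Filter.Eventually.of_forall fun n => seqCyl_fst_mem hd z n)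

/-- The preimage of a closed set which contains no nonempty relatively open subset of `F` is
nowhere dense. -/
lemma isNowhereDense_preimage_skel (hd : ∀ i, d i ∈ F)
    (hdense : ∀ x ∈ F, ∀ n, ∃ i, d i ∈ PiNat.cylinder x n) (K : Set (ℕ → Bool))
    (hK : IsClosed K) (hKF : ∀ V : Set (ℕ → Bool), IsOpen V → (V ∩ F).Nonempty → ¬ V ∩ F ⊆ K) :
    IsNowhereDense (skel d ⁻¹' K) := by
  have hcl : IsClosed (skel d ⁻¹' K) := hK.preimage (continuous_skel d)
  rw [IsNowhereDense, hcl.closure_eq, interior_eq_empty_iff_dense_compl]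
  rw [dense_iff_inter_open]
  intro O hO hOne
  obtain ⟨z, hz⟩ := hOne
  obtain ⟨n, hn⟩ : ∃ n, PiNat.cylinder z n ⊆ O := by
    have := (PiNat.isTopologicalBasis_cylinders (fun _ : ℕ => ℕ)).mem_nhds_iff.1 (hO.mem_nhds hz)
    obtain ⟨t, ⟨y, n, rfl⟩, hzt, htO⟩ := this
    refine ⟨n, ?_⟩
    rw [PiNat.mem_cylinder_iff_eq.1 hzt]
    exact htO
  set x := (seqCyl d z n).1 with hx
  set l := (seqCyl d z n).2 with hl
  have hxF : x ∈ F := seqCyl_fst_mem hd z n
  have h1 := hKF (PiNat.cylinder x l) (PiNat.isOpen_cylinder _ x l)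
    ⟨x, PiNat.self_mem_cylinder _ _, hxF⟩
  obtain ⟨a, ⟨ha1, ha2⟩, ha3⟩ := Set.not_subset.1 h1
  obtain ⟨m, hm⟩ : ∃ m, PiNat.cylinder a m ⊆ Kᶜ := by
    have := (PiNat.isTopologicalBasis_cylinders (fun _ : ℕ => Bool)).mem_nhds_iff.1
      (hK.isOpen_compl.mem_nhds ha3)
    obtain ⟨t, ⟨y, n, rfl⟩, hzt, htO⟩ := this
    refine ⟨n, ?_⟩
    rw [PiNat.mem_cylinder_iff_eq.1 hzt]
    exact htO
  obtain ⟨i, hi⟩ := hdense a ha2 (max l m)
  -- the new direction
  let z' : ℕ → ℕ := fun k => if k < n then z k else Nat.pair i m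
  have hz' : ∀ k < n, z' k = z k := fun k hk => by simp only [z', if_pos hk]
  have hz'n : z' n = Nat.pair i m := by simp [z']
  have h2 : seqCyl d z' n = seqCyl d z n := seqCyl_congr d z' z n hz'
  have h3 : d i ∈ PiNat.cylinder (seqCyl d z n).1 (seqCyl d z n).2 := by
    intro k hk
    have h4 : d i k = a k := hi k (lt_of_lt_of_le hk (le_max_left _ _))
    rw [h4]
    exact ha1 k hk
  have h5 : seqCyl d z' (n + 1) = (d i, l + 1 + m) := by
    change stepCyl d (seqCyl d z' n) (z' n) = _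
    rw [h2, hz'n]
    unfold stepCyl
    rw [Nat.unpair_pair]
    simp only
    rw [if_pos h3]
  refine ⟨z', hn ?_, ?_⟩
  · intro k hk
    exact hz' k hk
  · intro h6
    have h7 : skel d z' ∈ PiNat.cylinder a m := by
      intro k hk
      have h8 := skel_mem d z' (n + 1) k (by rw [h5]; simp only; omega)
      rw [h8, h5]
      exact hi k (lt_of_lt_of_le hk (le_max_right _ _))
    exact hm h7 h6

end skeletal

/-! ## The closed set generated by an open cover -/

section main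

variable {U : ℕ → Set (ℕ → Bool)} {B : (ℕ → Bool) → Set ℕ}

/-- the upward closed family generated by the sets `{n | x ∈ U n}` -/
def upSet (U : ℕ → Set (ℕ → Bool)) : Set (ℕ → Bool) := {a | ∃ x, ∀ n, x ∈ U n → a n = true}

lemma isClosed_upSet (hU : ∀ n, IsOpen (U n)) : IsClosed (upSet U) := by
  have h1 : IsClosed {p : (ℕ → Bool) × (ℕ → Bool) | ∀ n, p.1 ∈ U n → p.2 n = true} := by
    have h2 : {p : (ℕ → Bool) × (ℕ → Bool) | ∀ n, p.1 ∈ U n → p.2 n = true} =
        ⋂ n, (Prod.fst ⁻¹' (U n)ᶜ ∪ (fun p : (ℕ → Bool) × (ℕ → Bool) => p.2 n) ⁻¹' {true}) := by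
      ext p
      simp only [mem_ofPred_eq, mem_iInter, mem_union, mem_preimage, mem_compl_iff,
        mem_singleton_iff]
      refine forall_congr' fun n => ?_
      tauto
    rw [h2]
    refine isClosed_iInter fun n => IsClosed.union ?_ ?_
    · exact (hU n).isClosed_compl.preimage continuous_fst
    · exact (isClosed_discrete {true}).preimage ((continuous_apply n).comp continuous_snd)
  have h3 : upSet U = Prod.snd '' {p : (ℕ → Bool) × (ℕ → Bool) | ∀ n, p.1 ∈ U n → p.2 n = true} := by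
    ext a
    constructor
    · rintro ⟨x, hx⟩
      exact ⟨(x, a), hx, rfl⟩
    · rintro ⟨⟨x, a'⟩, hx, rfl⟩
      exact ⟨x, hx⟩
  rw [h3]
  exact (h1.isCompact.image continuous_snd).isClosed

/-- sets containing `B c` above `m` -/
def Kset (B : (ℕ → Bool) → Set ℕ) (c : ℕ → Bool) (m : ℕ) : Set (ℕ → Bool) :=
  {a | ∀ n, n ∈ B c → m ≤ n → a n = true}

lemma isClosed_Kset (c : ℕ → Bool) (m : ℕ) : IsClosed (Kset B c m) := by
  have : Kset B c m = ⋂ n ∈ {n | n ∈ B c ∧ m ≤ n}, (fun a : ℕ → Bool => a n) ⁻¹' {true} := by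
    ext a
    simp only [Kset, mem_ofPred_eq, mem_iInter, mem_preimage, mem_singleton_iff, and_imp]
  rw [this]
  exact isClosed_biInter fun n _ => (isClosed_discrete {true}).preimage (continuous_apply n)

/-- if `B c' ⊆* a` then `a` is in some `Kset B c' m` -/
lemma mem_Kset_of_finite {c : ℕ → Bool} {a : ℕ → Bool}
    (h : {n | n ∈ B c ∧ a n ≠ true}.Finite) : ∃ m, a ∈ Kset B c m := by
  obtain ⟨M, hM⟩ := h.bddAbove
  refine ⟨M + 1, fun n hn hm => ?_⟩
  by_contra h1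
  have := hM ⟨hn, h1⟩
  omega

lemma iUnion_Kset_mono {c c' : ℕ → Bool} (h : (B c' \ B c).Finite) :
    (⋃ m, Kset B c m) ⊆ ⋃ m, Kset B c' m := by
  intro a ha
  obtain ⟨m, hm⟩ := mem_iUnion.1 ha
  refine mem_iUnion.2 (mem_Kset_of_finite ?_)
  refine (h.union (Set.finite_lt_nat m)).subset ?_
  rintro n ⟨hn, hn'⟩
  by_cases h1 : n ∈ B c
  · right
    change n < m
    by_contra h2
    exact hn' (hm n h1 (not_lt.1 h2))
  · left
    exact ⟨hn, h1⟩

/-- The key lemma: if countable subfamilies of the linear refinement have lower bounds and there is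
no gamma-subcover, then there are a nonempty closed set `F` and a continuous map `h` from the Baire
space to the Cantor space, such that each set `h ⁻¹' (Kset B c m)` is nowhere dense, and each value
of `h` contains some `B (ξ z)`. -/
lemma exists_skeletal (hU : ∀ n, IsOpen (U n)) (hB : IsLinearRefinement U B)
    (hlow : ∀ S : Set (ℕ → Bool), S.Countable → ∃ x, ∀ s ∈ S, (B x \ B s).Finite)
    (hno : ¬ HasGammaSubcover U) :
    ∃ (h : (ℕ → ℕ) → (ℕ → Bool)) (ξ : (ℕ → ℕ) → (ℕ → Bool)),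
      (∀ c m, IsMeagre (h ⁻¹' Kset B c m)) ∧ ∀ z n, n ∈ B (ξ z) → h z n = true := by
  classical
  set Z := upSet U with hZ
  have hZc : IsClosed Z := isClosed_upSet hU
  have h0 : ∀ c, ¬ Z ⊆ ⋃ m, Kset B c m := by
    intro c hc
    refine hno ⟨B c, hB.infinite c, fun x => ?_⟩
    have h1 : (fun n => decide (x ∈ U n)) ∈ Z := ⟨x, fun n hn => by simpa using hn⟩
    obtain ⟨m, hm⟩ := mem_iUnion.1 (hc h1)
    refine (Set.finite_lt_nat m).subset ?_
    rintro n ⟨hn, hn'⟩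
    change n < m
    by_contra h2
    have h3 := hm n hn (not_lt.1 h2)
    exact hn' (by simpa using h3)
  let 𝓥 := TopologicalSpace.countableBasis (ℕ → Bool)
  have h𝓥 : TopologicalSpace.IsTopologicalBasis 𝓥 := TopologicalSpace.isBasis_countableBasis _
  let 𝓦 : Set (Set (ℕ → Bool)) := {V | V ∈ 𝓥 ∧ ∃ c, V ∩ Z ⊆ ⋃ m, Kset B c m}
  have h𝓦c : 𝓦.Countable := (TopologicalSpace.countable_countableBasis (ℕ → Bool)).mono fun V hV => hV.1
  have hch : ∀ V, V ∈ 𝓦 → ∃ c, V ∩ Z ⊆ ⋃ m, Kset B c m := fun V hV => hV.2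
  choose! cV hcV using hch
  obtain ⟨c₀, hc₀⟩ := hlow (cV '' 𝓦) (h𝓦c.image cV)
  have hG : ∀ a ∈ ⋃₀ 𝓦, a ∈ Z → a ∈ ⋃ m, Kset B c₀ m := by
    rintro a ⟨V, hV, haV⟩ haZ
    exact iUnion_Kset_mono (hc₀ _ ⟨V, hV, rfl⟩) (hcV V hV ⟨haV, haZ⟩)
  have hGo : IsOpen (⋃₀ 𝓦) := isOpen_sUnion fun V hV => h𝓥.isOpen hV.1
  set F := Z \ ⋃₀ 𝓦 with hF
  have hFc : IsClosed F := hZc.sdiff hGo
  have hFne : F.Nonempty := by
    rw [nonempty_iff_ne_empty]
    intro h1
    refine h0 c₀ fun a ha => hG a ?_ ha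
    by_contra h2
    have : a ∈ F := ⟨ha, h2⟩
    rw [h1] at this
    exact this
  have hFK : ∀ V : Set (ℕ → Bool), IsOpen V → (V ∩ F).Nonempty → ∀ c,
      ¬ V ∩ F ⊆ ⋃ m, Kset B c m := by
    rintro V hV ⟨a, haV, haF⟩ c hc
    obtain ⟨V', hV', haV', hV'V⟩ := h𝓥.exists_subset_of_mem_open haV hV
    obtain ⟨c', hc'⟩ := hlow {c₀, c} ((Set.countable_singleton c).insert c₀)
    refine haF.2 ⟨V', ⟨hV', c', ?_⟩, haV'⟩
    rintro b ⟨hb1, hb2⟩
    by_cases hb3 : b ∈ ⋃₀ 𝓦
    · exact iUnion_Kset_mono (hc' c₀ (by simp)) (hG b hb3 hb2)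
    · exact iUnion_Kset_mono (hc' c (by simp)) (hc ⟨hV'V hb1, hb2, hb3⟩)
  -- a dense sequence
  have : Nonempty F := hFne.to_subtype
  let d : ℕ → (ℕ → Bool) := fun i => (TopologicalSpace.denseSeq F i : ℕ → Bool)
  have hd : ∀ i, d i ∈ F := fun i => (TopologicalSpace.denseSeq F i).2
  have hdense : ∀ x ∈ F, ∀ n, ∃ i, d i ∈ PiNat.cylinder x n := by
    intro x hx n
    have h1 : IsOpen ((Subtype.val : F → (ℕ → Bool)) ⁻¹' PiNat.cylinder x n) :=
      (PiNat.isOpen_cylinder _ x n).preimage continuous_subtype_val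
    obtain ⟨y, hy1, ⟨i, rfl⟩⟩ := (TopologicalSpace.denseRange_denseSeq F).inter_open_nonempty _ h1
      ⟨⟨x, hx⟩, PiNat.self_mem_cylinder _ _⟩
    exact ⟨i, hy1⟩
  have hch2 : ∀ z, ∃ x, ∀ n, x ∈ U n → skel d z n = true := fun z =>
    (skel_mem_closed hd hFc z).1
  choose ξ hξ using hch2
  refine ⟨skel d, ξ, fun c m => ?_, fun z n hn => hξ z n (hB.subset _ hn)⟩
  refine (isNowhereDense_preimage_skel hd hdense _ (isClosed_Kset c m) fun V hV hne hsub => ?_).isMeagre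
  exact hFK V hV hne c (hsub.trans (subset_iUnion _ m))

end main

/-! ## Countable coinitial subfamilies -/

section diag

variable {U : ℕ → Set (ℕ → Bool)} {B : (ℕ → Bool) → Set ℕ}

lemma diff_finite_trans {P Q R : Set ℕ} (h1 : (P \ Q).Finite) (h2 : (Q \ R).Finite) :
    (P \ R).Finite := by
  refine (h1.union h2).subset ?_
  rintro n ⟨hn, hn'⟩
  by_cases h : n ∈ Q
  · exact Or.inr ⟨h, hn'⟩
  · exact Or.inl ⟨hn, h⟩

lemma exists_least (hB : IsLinearRefinement U B) (c : ℕ → (ℕ → Bool)) (k : ℕ) :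
    ∃ j, ∀ i ≤ k, (B (c j) \ B (c i)).Finite := by
  induction k with
  | zero =>
    refine ⟨0, fun i hi => ?_⟩
    obtain rfl : i = 0 := by omega
    simp
  | succ k ih =>
    obtain ⟨j, hj⟩ := ih
    rcases hB.linear (c j) (c (k + 1)) with h | h
    · refine ⟨j, fun i hi => ?_⟩
      rcases Nat.lt_or_ge i (k + 1) with h1 | h1
      · exact hj i (by omega)
      · obtain rfl : i = k + 1 := by omega
        exact h
    · refine ⟨k + 1, fun i hi => ?_⟩
      rcases Nat.lt_or_ge i (k + 1) with h1 | h1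
      · exact diff_finite_trans h (hj i (by omega))
      · obtain rfl : i = k + 1 := by omega
        simp

lemma gamma_of_countable (hB : IsLinearRefinement U B) (S : Set (ℕ → Bool)) (hS : S.Countable)
    (hco : ∀ x, ∃ s ∈ S, (B s \ B x).Finite) : HasGammaSubcover U := by
  obtain ⟨s₀, hs₀, -⟩ := hco (fun _ => true)
  obtain ⟨c, rfl⟩ := hS.exists_eq_range ⟨s₀, hs₀⟩
  have hinf : ∀ k, (⋂ i ∈ {i | i ≤ k}, B (c i)).Infinite := by
    intro k
    obtain ⟨j, hj⟩ := exists_least hB c k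
    have h1 : (⋃ i ∈ {i | i ≤ k}, (B (c j) \ B (c i))).Finite :=
      (Set.finite_le_nat k).biUnion fun i hi => hj i hi
    refine ((hB.infinite (c j)).sdiff h1).mono ?_
    rintro n ⟨hn, hn'⟩
    simp only [mem_iUnion, mem_iInter] at hn' ⊢
    intro i hi
    by_contra h2
    exact hn' ⟨i, hi, hn, h2⟩
  have hch : ∀ k N, ∃ a, a ∈ (⋂ i ∈ {i | i ≤ k}, B (c i)) ∧ N < a := fun k N =>
    (hinf k).exists_gt N
  choose f hf1 hf2 using hch
  let a : ℕ → ℕ := fun k => Nat.rec (f 0 0) (fun k ak => f (k + 1) ak) k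
  have ha : ∀ k, a k ∈ ⋂ i ∈ {i | i ≤ k}, B (c i) := by
    intro k
    cases k with
    | zero => exact hf1 0 0
    | succ k => exact hf1 (k + 1) (a k)
  have hmono : StrictMono a := strictMono_nat_of_lt_succ fun k => hf2 (k + 1) (a k)
  refine ⟨Set.range a, Set.infinite_range_of_injective hmono.injective, fun x => ?_⟩
  obtain ⟨s, ⟨i, rfl⟩, hs⟩ := hco x
  have h1 : (Set.range a \ B (c i)).Finite := by
    refine ((Set.finite_lt_nat i).image a).subset ?_
    rintro n ⟨⟨k, rfl⟩, hk⟩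
    refine ⟨k, ?_, rfl⟩
    change k < i
    by_contra h2
    have h3 := ha k
    simp only [mem_iInter] at h3
    exact hk (h3 i (not_lt.1 h2))
  refine (diff_finite_trans h1 hs).subset ?_
  rintro n ⟨hn, hn'⟩
  exact ⟨hn, fun h2 => hn' (hB.subset x h2)⟩

end diag

/-! ## The coinitiality theorem -/

theorem gamma_of_coinitiality (U : ℕ → Set (ℕ → Bool)) (hU : ∀ n, IsOpen (U n))
    (B : (ℕ → Bool) → Set ℕ) (hB : IsLinearRefinement U B)
    (h : (∃ S : Set (ℕ → Bool), Cardinal.mk S < covM ∧ ∀ x, ∃ s ∈ S, (B s \ B x).Finite) ∨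
      (∀ S : Set (ℕ → Bool), Cardinal.mk S ≤ nonM → ∃ x, ∀ s ∈ S, (B x \ B s).Finite)) :
    HasGammaSubcover U := by
  by_cases hcount : ∃ S : Set (ℕ → Bool), S.Countable ∧ ∀ x, ∃ s ∈ S, (B s \ B x).Finite
  · obtain ⟨S, hS, hco⟩ := hcount
    exact gamma_of_countable hB S hS hco
  have hlow : ∀ S : Set (ℕ → Bool), S.Countable → ∃ x, ∀ s ∈ S, (B x \ B s).Finite := by
    intro S hS
    by_contra h1
    push Not at h1
    refine hcount ⟨S, hS, fun x => ?_⟩
    obtain ⟨s, hs, hs'⟩ := h1 x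
    exact ⟨s, hs, (hB.linear x s).resolve_left hs'⟩
  by_contra hno
  obtain ⟨g, ξ, hmeag, hξ⟩ := exists_skeletal hU hB hlow hno
  have hmem : ∀ (c : ℕ → Bool) (z : ℕ → ℕ), (B c \ B (ξ z)).Finite → ∃ m, g z ∈ Kset B c m := by
    intro c z hz
    refine mem_Kset_of_finite (hz.subset ?_)
    rintro n ⟨hn, hn'⟩
    exact ⟨hn, fun h1 => hn' (hξ z n h1)⟩
  rcases h with ⟨S, hS, hco⟩ | h
  · let φ : S × ℕ → Set (ℕ → ℕ) := fun p => g ⁻¹' Kset B p.1 p.2
    have h1 : covM ≤ Cardinal.mk (Set.range φ) := by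
      refine csInf_le' ⟨Set.range φ, ?_, ?_, rfl⟩
      · rintro _ ⟨p, rfl⟩
        exact hmeag _ _
      · refine Set.eq_univ_of_forall fun z => ?_
        obtain ⟨s, hs, hs'⟩ := hco (ξ z)
        obtain ⟨m, hm⟩ := hmem s z hs'
        exact ⟨_, ⟨(⟨s, hs⟩, m), rfl⟩, hm⟩
    have h2 : Cardinal.mk (Set.range φ) ≤ Cardinal.mk (S × ℕ) := Cardinal.mk_range_le
    have h3 : Cardinal.aleph0 ≤ Cardinal.mk S := by
      by_contra h4
      refine hcount ⟨S, ?_, hco⟩
      exact (Cardinal.le_aleph0_iff_set_countable).1 (not_le.1 h4).le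
    have h5 : Cardinal.mk (S × ℕ) = Cardinal.mk S := by
      rw [Cardinal.mk_prod, Cardinal.lift_id, Cardinal.mk_nat, Cardinal.lift_aleph0,
        Cardinal.mul_aleph0_eq h3]
    rw [h5] at h2
    exact absurd (h1.trans h2) (not_le.2 hS)
  · have hne : {κ | ∃ Y : Set (ℕ → ℕ), ¬ IsMeagre Y ∧ Cardinal.mk Y = κ}.Nonempty :=
      ⟨_, Set.univ, not_isMeagre_of_isOpen isOpen_univ Set.univ_nonempty, rfl⟩
    obtain ⟨Y, hY, hYc⟩ := csInf_mem hne
    obtain ⟨c, hc⟩ := h (ξ '' Y) (Cardinal.mk_image_le.trans hYc.le)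
    refine hY ((isMeagre_iUnion fun m : ℕ => hmeag c m).mono ?_)
    intro y hy
    obtain ⟨m, hm⟩ := hmem c y (hc _ ⟨y, hy, rfl⟩)
    exact mem_iUnion.2 ⟨m, hm⟩

theorem gamma_of_nonM_lt_covM (h : nonM < covM) : CantorSatisfiesTauStarGamma := by
  intro U hU
  obtain ⟨B, hB⟩ := hU.refinable
  refine gamma_of_coinitiality U hU.isOpen B hB ?_
  by_cases h1 : ∀ S : Set (ℕ → Bool), Cardinal.mk S ≤ nonM → ∃ x, ∀ s ∈ S, (B x \ B s).Finite
  · exact Or.inr h1
  · push Not at h1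
    obtain ⟨S, hS, hS'⟩ := h1
    refine Or.inl ⟨S, lt_of_le_of_lt hS h, fun x => ?_⟩
    obtain ⟨s, hs, hs'⟩ := hS' x
    exact ⟨s, hs, (hB.linear x s).resolve_left hs'⟩

theorem gamma_of_coinitiality' (U : ℕ → Set (ℕ → Bool)) (hU : ∀ n, IsOpen (U n))
    (B : (ℕ → Bool) → Set ℕ) (hB : IsLinearRefinement U B)
    (h : coinitiality B < covM ∨ nonM < coinitiality B) : HasGammaSubcover U := by
  refine gamma_of_coinitiality U hU B hB ?_
  rcases h with h | h
  · left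
    have hne : {κ | ∃ S : Set (ℕ → Bool), (∀ x, ∃ s ∈ S, (B s \ B x).Finite) ∧
        Cardinal.mk S = κ}.Nonempty := ⟨_, Set.univ, fun x => ⟨x, mem_univ x, by simp⟩, rfl⟩
    obtain ⟨S, hS, hSc⟩ := csInf_mem hne
    exact ⟨S, hSc.trans_lt h, hS⟩
  · right
    intro S hS
    by_contra h1
    push Not at h1
    refine absurd (csInf_le' ⟨S, fun x => ?_, rfl⟩ : coinitiality B ≤ Cardinal.mk S)
      (not_le.2 (lt_of_le_of_lt hS h))
    obtain ⟨s, hs, hs'⟩ := h1 x
    exact ⟨s, hs, (hB.linear x s).resolve_left hs'⟩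

end Pool.Agent.TauStar
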