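import Mathlib
import Pool.Agent.TauStar.Defs

/-!
# A tau-star cover of the Cantor space without a gamma-subcover, under `p = c`
-/

set_option autoImplicit false

namespace Pool.Agent.TauStar

open Set

/-- Index set of the cover: pairs `(n,s)` with `s` a binary word of length `n+1`. -/
abbrev Idx := Σ n : ℕ, (Fin (n + 1) → Bool)

/-- the `n`-th block of a point -/
def block (x : ℕ → Bool) (n : ℕ) : Fin (n + 1) → Bool := fun i => x (Nat.pair n i)

/-- a point with prescribed blocks -/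
noncomputable def ofBlocks (F : ∀ n : ℕ, Fin (n + 1) → Bool) : ℕ → Bool := fun k =>
  if h : (Nat.unpair k).2 < (Nat.unpair k).1 + 1 then F (Nat.unpair k).1 ⟨(Nat.unpair k).2, h⟩
  else false

lemma block_ofBlocks (F : ∀ n : ℕ, Fin (n + 1) → Bool) (n : ℕ) : block (ofBlocks F) n = F n := by
  have key : ∀ (m j : ℕ) (hm : m = n) (i : Fin (n + 1)) (hj : j = i) (h : j < m + 1),
      F m ⟨j, h⟩ = F n i := by
    rintro m j rfl i rfl h
    rfl
  funext i
  have hi : (i : ℕ) < n + 1 := i.2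
  unfold block ofBlocks
  have h1 : (Nat.unpair (Nat.pair n i)).1 = n := by rw [Nat.unpair_pair]
  have h2 : (Nat.unpair (Nat.pair n i)).2 = i := by rw [Nat.unpair_pair]
  rw [dif_pos (by rw [h1, h2]; exact hi)]
  exact key _ _ h1 i h2 _

/-- the members of the cover -/
def Uidx (p : Idx) : Set (ℕ → Bool) := {x | block x p.1 ≠ p.2}

lemma isOpen_Uidx (p : Idx) : IsOpen (Uidx p) := by
  have hc : Continuous fun x : ℕ → Bool => block x p.1 :=
    continuous_pi fun i => continuous_apply _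
  exact (isOpen_discrete ({p.2}ᶜ : Set (Fin (p.1 + 1) → Bool))).preimage hc

/-- a point missing exactly prescribed members of the cover, one in each column -/
lemma exists_point (F : ∀ n : ℕ, Fin (n + 1) → Bool) :
    ∃ x : ℕ → Bool, ∀ p : Idx, x ∉ Uidx p ↔ F p.1 = p.2 := by
  refine ⟨ofBlocks F, fun p => ?_⟩
  simp only [Uidx, mem_ofPred_eq, not_not, block_ofBlocks]

lemma Uidx_injective : Function.Injective Uidx := by
  classical
  intro p q hpq
  by_contra hne
  -- a point outside `Uidx p` and inside `Uidx q`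
  obtain ⟨F, hF1, hF2⟩ : ∃ F : ∀ n : ℕ, Fin (n + 1) → Bool, F p.1 = p.2 ∧ F q.1 ≠ q.2 := by
    by_cases h : p.1 = q.1
    · refine ⟨Function.update (fun n _ => false) p.1 p.2, by simp, ?_⟩
      obtain ⟨n, s⟩ := p
      obtain ⟨m, t⟩ := q
      simp only at h
      subst h
      simp only [Function.update_self]
      rintro rfl
      exact hne rfl
    · refine ⟨Function.update (fun n i => !(if h : n = q.1 then q.2 (h ▸ i) else false)) p.1 p.2,
        by simp, ?_⟩
      rw [Function.update_of_ne (Ne.symm h)]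
      intro h1
      have h2 := congrFun h1 0
      simp at h2
  obtain ⟨x, hx⟩ := exists_point F
  have h1 : x ∉ Uidx p := (hx p).2 hF1
  rw [hpq] at h1
  exact hF2 ((hx q).1 h1)

lemma Uidx_ne_univ (p : Idx) : Uidx p ≠ univ := by
  classical
  obtain ⟨x, hx⟩ := exists_point (Function.update (fun n _ => false) p.1 p.2)
  intro h
  have h1 : x ∉ Uidx p := (hx p).2 (by simp)
  rw [h] at h1
  exact h1 (mem_univ _)

/-- the column of `T` over `n` -/
def col (T : Set Idx) (n : ℕ) : Set (Fin (n + 1) → Bool) := {s | (⟨n, s⟩ : Idx) ∈ T}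

/-- sets with arbitrarily large columns -/
def Big (T : Set Idx) : Prop := ∀ k N : ℕ, ∃ n, N ≤ n ∧ k ≤ (col T n).ncard

lemma big_univ : Big univ := by
  intro k N
  refine ⟨max k N, le_max_right _ _, ?_⟩
  have h1 : col univ (max k N) = univ := by ext; simp [col]
  rw [h1, ncard_univ, Nat.card_eq_fintype_card]
  simp only [Fintype.card_pi, Fintype.card_bool, Finset.prod_const, Finset.card_univ,
    Fintype.card_fin]
  have h2 : max k N + 1 < 2 ^ (max k N + 1) := Nat.lt_two_pow_self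
  omega

lemma Big.infinite {T : Set Idx} (hT : Big T) : T.Infinite := by
  refine Set.Infinite.of_image (fun p : Idx => p.1) ?_
  refine Set.infinite_of_forall_exists_gt fun N => ?_
  obtain ⟨n, hn, hn'⟩ := hT 1 (N + 1)
  obtain ⟨s, hs⟩ := (Set.ncard_pos (toFinite _)).1 (lt_of_lt_of_le Nat.one_pos hn')
  exact ⟨n, ⟨⟨n, s⟩, hs, rfl⟩, hn⟩

lemma Big.diff_graph {T : Set Idx} (hT : Big T) (x : ℕ → Bool) : Big (T ∩ {p | x ∈ Uidx p}) := by
  intro k N
  obtain ⟨n, hn, hk⟩ := hT (k + 1) N
  refine ⟨n, hn, ?_⟩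
  have h1 : col T n ⊆ insert (block x n) (col (T ∩ {p | x ∈ Uidx p}) n) := by
    intro s hs
    by_cases h2 : block x n = s
    · exact Or.inl h2.symm
    · exact Or.inr ⟨hs, h2⟩
  have h3 := ncard_le_ncard h1 (toFinite _)
  have h4 := ncard_insert_le (block x n) (col (T ∩ {p | x ∈ Uidx p}) n)
  omega

/-- finite subsets of `T` inside one column beyond `k`, with more than `k` elements -/
def Eset (T : Set Idx) (k : ℕ) : Set (Finset Idx) :=
  {a | (a : Set Idx) ⊆ T ∧ k < a.card ∧ ∃ n, k ≤ n ∧ ∀ p ∈ a, p.1 = n}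

lemma Big.infinite_Eset {T : Set Idx} (hT : Big T) (k : ℕ) : (Eset T k).Infinite := by
  classical
  refine Set.Infinite.of_image (fun a : Finset Idx => a.sup fun p => p.1) ?_
  refine Set.infinite_of_forall_exists_gt fun N => ?_
  obtain ⟨n, hn, hk⟩ := hT (k + 1) (max k (N + 1))
  let ι : (Fin (n + 1) → Bool) ↪ Idx :=
    ⟨fun s => (⟨n, s⟩ : Idx), fun s t h => by simpa using h⟩
  let a : Finset Idx := (toFinite (col T n)).toFinset.map ι
  have ha : ∀ p ∈ a, p.1 = n ∧ p ∈ T := by
    intro p hp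
    simp only [a, ι, Finset.mem_map, Finite.mem_toFinset] at hp
    obtain ⟨s, hs, rfl⟩ := hp
    exact ⟨rfl, hs⟩
  have hcard : k < a.card := by
    rw [Finset.card_map, ← ncard_eq_toFinset_card _ (toFinite _)]
    omega
  refine ⟨a.sup fun p => p.1, ⟨a, ⟨fun p hp => (ha p hp).2, hcard, n,
    (le_max_left _ _).trans hn, fun p hp => (ha p hp).1⟩, rfl⟩, ?_⟩
  obtain ⟨p, hp⟩ := Finset.card_pos.1 (lt_of_le_of_lt (Nat.zero_le _) hcard)
  have h1 : p.1 ≤ a.sup fun p => p.1 := Finset.le_sup (f := fun p : Idx => p.1) hp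
  have h2 := (ha p hp).1
  have h3 : N + 1 ≤ n := (le_max_right _ _).trans hn
  omega

lemma Eset_subset {T T' : Set Idx} (h : (T' \ T).Finite) (k : ℕ) :
    ∃ k', k ≤ k' ∧ Eset T' k' ⊆ Eset T k := by
  obtain ⟨M, hM⟩ := (h.image fun p : Idx => p.1).bddAbove
  refine ⟨max k (M + 1), le_max_left _ _, ?_⟩
  rintro a ⟨ha, hc, n, hn, hn'⟩
  refine ⟨?_, lt_of_le_of_lt (le_max_left _ _) hc, n, (le_max_left _ _).trans hn, hn'⟩
  intro p hp
  by_contra h1
  have h2 : p.1 ≤ M := hM ⟨p, ⟨ha hp, h1⟩, rfl⟩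
  have h3 := hn' p hp
  have h4 : M + 1 ≤ n := (le_max_right _ _).trans hn
  omega

lemma Eset_mono {T : Set Idx} {k k' : ℕ} (h : k ≤ k') : Eset T k' ⊆ Eset T k := by
  rintro a ⟨ha, hc, n, hn, hn'⟩
  exact ⟨ha, lt_of_le_of_lt h hc, n, h.trans hn, hn'⟩

/-- Pseudo-intersections for small centered families on an arbitrary countable infinite set. -/
lemma transfer {Q : Type} [Countable Q] [Infinite Q] {κ : Cardinal.{0}}
    (hp : ∀ A : Set (Set ℕ), Cardinal.mk A ≤ κ → Centered A → HasPseudoIntersection A)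
    (A : Set (Set Q)) (hA : Cardinal.mk A ≤ κ)
    (hc : ∀ F : Finset (Set Q), (F : Set (Set Q)) ⊆ A → (⋂₀ (F : Set (Set Q))).Infinite) :
    ∃ P : Set Q, P.Infinite ∧ ∀ a ∈ A, (P \ a).Finite := by
  classical
  obtain ⟨_⟩ := nonempty_denumerable Q
  let e : Q ≃ ℕ := Denumerable.eqv Q
  let φ : Set Q → Set ℕ := fun a => e.symm ⁻¹' a
  have hφ : Function.Injective φ := e.symm.surjective.preimage_injective
  obtain ⟨P, hP, hP'⟩ := hp (φ '' A) (Cardinal.mk_image_le.trans hA) (by
    intro F hF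
    have h1 : ∀ b ∈ F, ∃ a ∈ A, φ a = b := fun b hb => hF hb
    choose! ψ hψ1 hψ2 using h1
    have h2 := hc (F.image ψ) (by
      intro a ha
      simp only [Finset.coe_image, mem_image, Finset.mem_coe] at ha
      obtain ⟨b, hb, rfl⟩ := ha
      exact hψ1 b hb)
    have h3 : φ (⋂₀ ((F.image ψ : Finset (Set Q)) : Set (Set Q))) ⊆ ⋂₀ (F : Set (Set ℕ)) := by
      intro n hn b hb
      have h4 : e.symm n ∈ ψ b := hn (ψ b) (by
        simp only [Finset.coe_image, mem_image, Finset.mem_coe]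
        exact ⟨b, hb, rfl⟩)
      rw [← hψ2 b hb]
      exact h4
    refine Set.Infinite.mono h3 ?_
    exact h2.preimage (by rw [e.symm.surjective.range_eq]; exact subset_univ _))
  refine ⟨e ⁻¹' P, ?_, fun a ha => ?_⟩
  · exact hP.preimage (by rw [e.surjective.range_eq]; exact subset_univ _)
  · have h1 := hP' (φ a) ⟨a, ha, rfl⟩
    have h2 : e ⁻¹' P \ a = e ⁻¹' (P \ φ a) := by
      ext q
      simp [φ]
    rw [h2]
    exact h1.preimage e.injective.injOn

/-- The successor step of the tower construction. -/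
lemma exists_big_lower {κ : Cardinal.{0}} (hκ : Cardinal.aleph0 ≤ κ)
    (hp : ∀ A : Set (Set ℕ), Cardinal.mk A ≤ κ → Centered A → HasPseudoIntersection A)
    (𝒯 : Set (Set Idx)) (hcard : Cardinal.mk 𝒯 ≤ κ) (hne : 𝒯.Nonempty)
    (hbig : ∀ T ∈ 𝒯, Big T) (hlin : ∀ T ∈ 𝒯, ∀ T' ∈ 𝒯, (T \ T').Finite ∨ (T' \ T).Finite) :
    ∃ T, Big T ∧ ∀ T' ∈ 𝒯, (T \ T').Finite := by
  classical
  let φ : 𝒯 × ℕ → Set (Finset Idx) := fun p => Eset p.1 p.2
  have hc1 : Cardinal.mk (range φ) ≤ κ := by
    refine Cardinal.mk_range_le.trans ?_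
    rw [Cardinal.mk_prod, Cardinal.lift_id, Cardinal.mk_nat, Cardinal.lift_aleph0]
    exact (mul_le_mul' hcard hκ).trans (Cardinal.mul_eq_self hκ).le
  have hfin : ∀ F : Finset (Set (Finset Idx)), (F : Set (Set (Finset Idx))) ⊆ range φ →
      ∃ T ∈ 𝒯, ∃ k, Eset T k ⊆ ⋂₀ (F : Set (Set (Finset Idx))) := by
    intro F
    induction F using Finset.induction_on with
    | empty =>
      intro _
      obtain ⟨T, hT⟩ := hne
      exact ⟨T, hT, 0, by simp⟩
    | insert b F hb ih =>
      intro hF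
      rw [Finset.coe_insert, insert_subset_iff] at hF
      obtain ⟨T, hT, k, hk⟩ := ih hF.2
      obtain ⟨⟨⟨T', hT'⟩, k'⟩, rfl⟩ := hF.1
      rw [Finset.coe_insert, sInter_insert]
      rcases hlin T hT T' hT' with h | h
      · obtain ⟨m, hm, hm'⟩ := Eset_subset h k'
        exact ⟨T, hT, max k m, subset_inter ((Eset_mono (le_max_right _ _)).trans hm')
          ((Eset_mono (le_max_left _ _)).trans hk)⟩
      · obtain ⟨m, hm, hm'⟩ := Eset_subset h k
        exact ⟨T', hT', max k' m, subset_inter (Eset_mono (le_max_left _ _))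
          (((Eset_mono (le_max_right _ _)).trans hm').trans hk)⟩
  obtain ⟨P, hP, hP'⟩ := transfer hp (range φ) hc1 (by
    intro F hF
    obtain ⟨T, hT, k, hk⟩ := hfin F hF
    exact ((hbig T hT).infinite_Eset k).mono hk)
  have hPE : ∀ T ∈ 𝒯, ∀ k, (P \ Eset T k).Finite := fun T hT k => hP' _ ⟨(⟨T, hT⟩, k), rfl⟩
  refine ⟨⋃ a ∈ P, (a : Set Idx), ?_, fun T hT => ?_⟩
  · intro k N
    obtain ⟨T, hT⟩ := hne
    obtain ⟨a, haP, ha⟩ : ∃ a ∈ P, a ∈ Eset T (max k N) := by
      by_contra h1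
      push Not at h1
      refine hP ((hPE T hT (max k N)).subset fun a ha => ⟨ha, h1 a ha⟩)
    obtain ⟨-, hcard', n, hn, hn'⟩ := ha
    refine ⟨n, (le_max_right _ _).trans hn, ?_⟩
    have h2 : a.card ≤ (col (⋃ a ∈ P, (a : Set Idx)) n).ncard := by
      have h3 : (a : Set Idx) ⊆ (Sigma.mk n) '' (col (⋃ a ∈ P, (a : Set Idx)) n) := by
        rintro ⟨m, s⟩ hp1
        obtain rfl : m = n := hn' _ hp1
        exact ⟨s, mem_biUnion haP hp1, rfl⟩
      have h4 := ncard_le_ncard h3 ((toFinite _).image _)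
      rw [ncard_image_of_injective _ sigma_mk_injective, ncard_coe_finset] at h4
      exact h4
    have h5 := le_max_left k N
    omega
  · refine ((hPE T hT 0).biUnion fun a _ => a.finite_toSet).subset ?_
    rintro p ⟨hp1, hp2⟩
    obtain ⟨a, haP, hpa⟩ := mem_iUnion₂.1 hp1
    refine mem_biUnion (⟨haP, fun h1 => hp2 (h1.1 hpa)⟩ : a ∈ P \ Eset T 0) hpa

/-- The tower: for each point `x` of `X` a big set contained in `{p | x ∈ Uidx p}`, decreasing
modulo finite sets along a well-order of `X`. -/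
lemma exists_tower (X : Set (ℕ → Bool))
    (hp : ∀ κ : Cardinal.{0}, κ < Cardinal.mk X → ∀ A : Set (Set ℕ),
      Cardinal.mk A ≤ max κ Cardinal.aleph0 → Centered A → HasPseudoIntersection A) :
    ∃ T : X → Set Idx, (∀ x, Big (T x)) ∧ (∀ x, T x ⊆ {p | x.1 ∈ Uidx p}) ∧
      ∀ x y, (T x \ T y).Finite ∨ (T y \ T x).Finite := by
  classical
  obtain ⟨r, wo, hr⟩ := Cardinal.exists_ord_eq X
  have hwf : WellFounded r := wo.wf
  let P : (x : X) → ((y : X) → r y x → Set Idx) → Set Idx → Prop :=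
    fun x rec T => Big T ∧ T ⊆ {p | x.1 ∈ Uidx p} ∧ ∀ y (hy : r y x), (T \ rec y hy).Finite
  let F : (x : X) → ((y : X) → r y x → Set Idx) → Set Idx :=
    fun x rec => if h : ∃ T, P x rec T then h.choose else ∅
  let T : X → Set Idx := hwf.fix F
  have hT : ∀ x, Big (T x) ∧ T x ⊆ {p | x.1 ∈ Uidx p} ∧ ∀ y, r y x → (T x \ T y).Finite := by
    intro x
    induction x using hwf.induction with
    | _ x ih =>
      have hex : ∃ S, P x (fun y _ => T y) S := by
        have hlin : ∀ S ∈ insert univ (T '' {y | r y x}), ∀ S' ∈ insert univ (T '' {y | r y x}),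
            (S \ S').Finite ∨ (S' \ S).Finite := by
          rintro S (rfl | ⟨y, hy, rfl⟩) S' (rfl | ⟨y', hy', rfl⟩)
          · simp
          · right; simp
          · left; simp
          · rcases trichotomous_of r y y' with h | h | h
            · exact Or.inr ((ih y' hy').2.2 y h)
            · subst h; simp
            · exact Or.inl ((ih y hy).2.2 y' h)
        have hκ : Cardinal.mk {y | r y x} < Cardinal.mk X := by
          have h2 := Cardinal.card_typein_lt (r := r) x hr
          rw [Ordinal.card_typein] at h2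
          exact h2
        have hcard : Cardinal.mk (insert univ (T '' {y | r y x}) : Set (Set Idx)) ≤
            max (Cardinal.mk {y | r y x}) Cardinal.aleph0 := by
          refine Cardinal.mk_insert_le.trans ?_
          refine (add_le_add_left Cardinal.mk_image_le 1).trans ?_
          refine (add_le_add (le_max_left _ Cardinal.aleph0)
            (Cardinal.one_lt_aleph0.le.trans (le_max_right (Cardinal.mk {y | r y x}) _))).trans ?_
          exact (Cardinal.add_eq_self (le_max_right _ _)).le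
        obtain ⟨S, hS, hS'⟩ := exists_big_lower (le_max_right _ _)
          (hp (Cardinal.mk {y | r y x}) hκ) (insert univ (T '' {y | r y x})) hcard
          ⟨univ, mem_insert _ _⟩ (by
            rintro S (rfl | ⟨y, hy, rfl⟩)
            · exact big_univ
            · exact (ih y hy).1) hlin
        refine ⟨S ∩ {p | x.1 ∈ Uidx p}, hS.diff_graph x, inter_subset_right, fun y hy => ?_⟩
        refine (hS' (T y) (mem_insert_of_mem _ ⟨y, hy, rfl⟩)).subset ?_
        exact sdiff_subset_sdiff_left inter_subset_left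
      have hTx : T x = F x (fun y _ => T y) := hwf.fix_eq F x
      have hTx' : T x = hex.choose := by rw [hTx]; exact dif_pos hex
      have h1 := hex.choose_spec
      rw [← hTx'] at h1
      exact ⟨h1.1, h1.2.1, h1.2.2⟩
  refine ⟨T, fun x => (hT x).1, fun x => (hT x).2.1, fun x y => ?_⟩
  rcases trichotomous_of r x y with h | h | h
  · exact Or.inr ((hT y).2.2 x h)
  · subst h; simp
  · exact Or.inl ((hT x).2.2 y h)

lemma isClopen_Uidx (p : Idx) : IsClopen (Uidx p) := by
  have hc : Continuous fun x : ℕ → Bool => block x p.1 :=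
    continuous_pi fun i => continuous_apply _
  exact (isClopen_discrete ({p.2}ᶜ : Set (Fin (p.1 + 1) → Bool))).preimage hc

lemma infinite_Idx : Infinite Idx := Infinite.of_injective (fun n : ℕ => (⟨n, fun _ => false⟩ : Idx))
    (fun _ _ h => congrArg Sigma.fst h)

/-- The cover, enumerated by natural numbers. -/
lemma exists_cover : ∃ U : ℕ → Set (ℕ → Bool), (∀ n, IsClopen (U n)) ∧ Function.Injective U ∧
    (∀ n, U n ≠ univ) ∧ (∀ x, {n | x ∈ U n}.Infinite) ∧ ¬ HasGammaSubcover U ∧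
    ∀ X : Set (ℕ → Bool), (∀ κ : Cardinal.{0}, κ < Cardinal.mk X → ∀ A : Set (Set ℕ),
      Cardinal.mk A ≤ max κ Cardinal.aleph0 → Centered A → HasPseudoIntersection A) →
      ∃ B : (ℕ → Bool) → Set ℕ, (∀ x ∈ X, B x ⊆ {n | x ∈ U n} ∧ (B x).Infinite) ∧
        ∀ x ∈ X, ∀ y ∈ X, (B x \ B y).Finite ∨ (B y \ B x).Finite := by
  classical
  have := infinite_Idx
  obtain ⟨_⟩ := nonempty_denumerable Idx
  let e : ℕ ≃ Idx := (Denumerable.eqv Idx).symm
  have hinf : ∀ S : Set Idx, S.Infinite → (e ⁻¹' S).Infinite := fun S hS =>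
    hS.preimage (by rw [e.surjective.range_eq]; exact subset_univ _)
  refine ⟨fun n => Uidx (e n), fun n => isClopen_Uidx _, Uidx_injective.comp e.injective,
    fun n => Uidx_ne_univ _, fun x => ?_, ?_, ?_⟩
  · have h1 := hinf _ (big_univ.diff_graph x).infinite
    exact h1.mono fun n hn => hn.2
  · rintro ⟨A, hA, hA'⟩
    -- the columns met by `e '' A`
    let N : Set ℕ := {n | ∃ s, (⟨n, s⟩ : Idx) ∈ e '' A}
    have hN : N.Infinite := by
      intro hfin
      have h1 : (e '' A).Infinite := hA.image e.injective.injOn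
      refine h1 ((hfin.biUnion fun n _ => (toFinite (univ : Set (Fin (n + 1) → Bool))).image
        (Sigma.mk n)).subset ?_)
      rintro ⟨n, s⟩ hp1
      exact mem_biUnion (⟨s, hp1⟩ : n ∈ N) ⟨s, mem_univ _, rfl⟩
    have hch : ∀ n, ∃ s : Fin (n + 1) → Bool, n ∈ N → (⟨n, s⟩ : Idx) ∈ e '' A := by
      intro n
      by_cases h : n ∈ N
      · obtain ⟨s, hs⟩ := h
        exact ⟨s, fun _ => hs⟩
      · exact ⟨fun _ => false, fun h' => absurd h' h⟩
    choose F hF using hch
    obtain ⟨x, hx⟩ := exists_point F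
    refine hN (((hA' x).image fun n => (e n).1).subset ?_)
    intro n hn
    obtain ⟨m, hm, hm'⟩ := hF n hn
    refine ⟨m, ⟨hm, ?_⟩, ?_⟩
    · change x ∉ Uidx (e m)
      rw [hx, hm']
    · change (e m).1 = n
      rw [hm']
  · intro X hX
    obtain ⟨T, hT1, hT2, hT3⟩ := exists_tower X hX
    refine ⟨fun x => if h : x ∈ X then e ⁻¹' T ⟨x, h⟩ else ∅, fun x hx => ?_,
      fun x hx y hy => ?_⟩
    · simp only [dif_pos hx]
      exact ⟨fun n hn => hT2 ⟨x, hx⟩ hn, hinf _ (hT1 ⟨x, hx⟩).infinite⟩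
    · simp only [dif_pos hx, dif_pos hy]
      have key : ∀ S S' : Set Idx, (S \ S').Finite → (e ⁻¹' S \ e ⁻¹' S').Finite := by
        intro S S' h
        have h1 : (e ⁻¹' (S \ S')).Finite := h.preimage e.injective.injOn
        exact h1
      rcases hT3 ⟨x, hx⟩ ⟨y, hy⟩ with h | h
      · exact Or.inl (key _ _ h)
      · exact Or.inr (key _ _ h)

lemma hasPseudoIntersection_of_countable {A : Set (Set ℕ)} (hA : A.Countable) (hc : Centered A) :
    HasPseudoIntersection A := by
  classical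
  rcases A.eq_empty_or_nonempty with rfl | hne
  · exact ⟨univ, infinite_univ, fun a ha => absurd ha (notMem_empty a)⟩
  obtain ⟨c, rfl⟩ := hA.exists_eq_range hne
  have hinf : ∀ k, (⋂ i ∈ {i | i ≤ k}, c i).Infinite := by
    intro k
    have h1 := hc ((Finset.range (k + 1)).image c) (by
      intro b hb
      simp only [Finset.coe_image, mem_image] at hb
      obtain ⟨i, -, rfl⟩ := hb
      exact ⟨i, rfl⟩)
    refine h1.mono ?_
    intro n hn
    simp only [mem_iInter]
    intro i hi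
    refine hn (c i) ?_
    simp only [Finset.coe_image, mem_image, Finset.coe_range, mem_Iio]
    exact ⟨i, Nat.lt_succ_of_le hi, rfl⟩
  have hch : ∀ k N, ∃ a, a ∈ (⋂ i ∈ {i | i ≤ k}, c i) ∧ N < a := fun k N =>
    (hinf k).exists_gt N
  choose f hf1 hf2 using hch
  let a : ℕ → ℕ := fun k => Nat.rec (f 0 0) (fun k ak => f (k + 1) ak) k
  have ha : ∀ k, a k ∈ ⋂ i ∈ {i | i ≤ k}, c i := by
    intro k
    cases k with
    | zero => exact hf1 0 0
    | succ k => exact hf1 (k + 1) (a k)
  have hmono : StrictMono a := strictMono_nat_of_lt_succ fun k => hf2 (k + 1) (a k)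
  refine ⟨Set.range a, Set.infinite_range_of_injective hmono.injective, ?_⟩
  rintro _ ⟨i, rfl⟩
  refine ((Set.finite_lt_nat i).image a).subset ?_
  rintro n ⟨⟨k, rfl⟩, hk⟩
  refine ⟨k, ?_, rfl⟩
  change k < i
  by_contra h2
  have h3 := ha k
  simp only [mem_iInter] at h3
  exact hk (h3 i (not_lt.1 h2))

lemma hasPseudoIntersection_of_card {A : Set (Set ℕ)} (hc : Centered A)
    (hA : Cardinal.mk A ≤ Cardinal.aleph0 ∨ Cardinal.mk A < pNum) : HasPseudoIntersection A := by
  rcases hA with hA | hA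
  · exact hasPseudoIntersection_of_countable (Cardinal.le_aleph0_iff_set_countable.1 hA) hc
  · by_contra hno
    exact absurd (csInf_le' ⟨A, hc, hno, rfl⟩ : pNum ≤ Cardinal.mk A) (not_le.2 hA)

/-- An unconditional result: a clopen cover of the Cantor space without gamma-subcovers which is
linearly refinable on each subset of cardinality at most `p`. -/
theorem exists_cover_small : ∃ U : ℕ → Set (ℕ → Bool), (∀ n, IsClopen (U n)) ∧
    Function.Injective U ∧ (∀ n, U n ≠ univ) ∧ (∀ x, {n | x ∈ U n}.Infinite) ∧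
    ¬ HasGammaSubcover U ∧ ∀ X : Set (ℕ → Bool), Cardinal.mk X ≤ pNum →
      ∃ B : (ℕ → Bool) → Set ℕ, (∀ x ∈ X, B x ⊆ {n | x ∈ U n} ∧ (B x).Infinite) ∧
        ∀ x ∈ X, ∀ y ∈ X, (B x \ B y).Finite ∨ (B y \ B x).Finite := by
  obtain ⟨U, h1, h2, h3, h4, h5, h6⟩ := exists_cover
  refine ⟨U, h1, h2, h3, h4, h5, fun X hX => h6 X fun κ hκ A hA hc => ?_⟩
  refine hasPseudoIntersection_of_card hc ?_
  rcases le_max_iff.1 hA with h | h
  · exact Or.inr (lt_of_le_of_lt h (lt_of_lt_of_le hκ hX))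
  · exact Or.inl h

/-- The continuum hypothesis, or more generally `p = c`, refutes the positive answer to Q1. -/
theorem not_cantorSatisfies
    (h : Cardinal.continuum.{0} = Cardinal.aleph.{0} 1 ∨ pNum = Cardinal.continuum.{0}) :
    ¬ CantorSatisfiesTauStarGamma := by
  obtain ⟨U, h1, h2, h3, h4, h5, h6⟩ := exists_cover
  have h𝔠 : Cardinal.mk (univ : Set (ℕ → Bool)) = Cardinal.continuum := by simp
  intro hQ
  obtain ⟨B, hB1, hB2⟩ := h6 univ fun κ hκ A hA hc => by
    refine hasPseudoIntersection_of_card hc ?_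
    rw [h𝔠] at hκ
    rcases le_max_iff.1 hA with hA | hA
    · rcases h with h | h
      · left
        rw [h, ← Cardinal.succ_aleph0] at hκ
        exact hA.trans (Order.lt_succ_iff.1 hκ)
      · right
        rw [h]
        exact lt_of_le_of_lt hA hκ
    · exact Or.inl hA
  refine h5 (hQ U ⟨fun n => (h1 n).isOpen, h2, h3, h4, B, fun x => (hB1 x (mem_univ x)).1,
    fun x => (hB1 x (mem_univ x)).2, fun x y => hB2 x (mem_univ x) y (mem_univ y)⟩)

end Pool.Agent.TauStar
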